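import Pool.Agent.Helper50.AY.St

set_option autoImplicit false

namespace Pool.Agent.Helper48.AY

open Pool.Agent.Helper50.AY Pool.Agent.Helper43.GD Polynomial

theorem hPOL : StPOL := by
  intro L _ y c N n
  induction n with
  | zero =>
    intro h i hi
    have hi0 : i = 0 := Nat.le_zero.mp hi
    have h0 := h 0 le_rfl
    subst hi0
    simpa using h0
  | succ n ih =>
    intro h i hi
    have key : ∀ j ≤ n, c * (y ^ j * (y + 1) ^ (n - j)) ∈ N := by
      intro j hj
      have h1 := h j (by omega)
      have h2 := h (j + 1) (by omega)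
      have e1 : n + 1 - j = (n - j) + 1 := by omega
      have e2 : n + 1 - (j + 1) = n - j := by omega
      rw [e1] at h1
      rw [e2] at h2
      have h3 := N.sub_mem h1 h2
      have e3 : c * (y ^ j * (y + 1) ^ (n - j + 1)) - c * (y ^ (j + 1) * (y + 1) ^ (n - j)) =
          c * (y ^ j * (y + 1) ^ (n - j)) := by ring
      rwa [e3] at h3
    rcases Nat.lt_or_ge i (n + 1) with hlt | hge
    · exact ih key i (by omega)
    · have hi1 : i = n + 1 := by omega
      have h0 := h (n + 1) le_rfl
      subst hi1
      simpa using h0

end Pool.Agent.Helper48.AY
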